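import Pool.Agent.N542.PU.Err
import Pool.Agent.N542.PB.GenPoly

set_option autoImplicit false

/-!
# Strings of composite values of polynomials near the integral parts of smooth functions of a prime number

Let `𝓕` be a finite set of nonconstant polynomials with integer coefficients, for instance `{n ^ 2 - 2}`. The
values `f(m)`, `f ∈ 𝓕`, are composite on strings of `κ log X log log X` consecutive integers `m ≤ X`, more than the
average distance of the prime values. We show that such strings exist at MANY places which are prescribed by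
smooth functions of a PRIME number, at several places at the same time, and with an arbitrary set of shifts in
place of the string.

Precisely (`result`), let `f_1, …, f_r` be smoothly varying functions (Bingham, Goldie, Teugels) with real indices
`c_j ∉ {0, 1, 2, …}`, for instance `t ^ (c_j)` plus a combination of lower real powers, let `u_j` be real numbers,
`v_j = c_j + u_j`. The places are `x_k(p) = α_{φ(k)} f_{φ(k)}(p + σ(k)) + P_k(p)`, `k ≤ n`: every function may be
used at fewer than `v_j + 1` different points `p + σ(k)`, provided that the `v_j` are incongruent modulo one; if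
every function is used at most once, it is enough that the `v_j` are distinct (and positive). Let `b` be prime to
`d`, `B, D` natural numbers and `0 < ε ≤ 1 / 2`. There are `κ, δ > 0` such that for all large `Z`, for ALL sets
`S` of at most `κ log Z log log Z` integers `|s| ≤ (log Z) ^ B`, ALL real `α_j` with
`Z ^ (u_j - δ) ≤ |α_j| ≤ Z ^ (u_j + δ)` and ALL real polynomials `P_k` of degree at most `D`, at least
`Z ^ (1 - ε)` primes `p ≡ b (mod d)` of `(Z, (1 + ε) Z]` are such that ALL the values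
`f(⌊x_k(p)⌋ + s)`, `f ∈ 𝓕`, `s ∈ S`, `k ≤ n`, have a prime factor `≤ Z ^ ε`.

Consequence for the counting functions (`error_terms`). Let `c_j > 0` and `x_k(p) = f_{φ(k)}(p + σ(k))`. Then for
at least `Z ^ (1 - ε)` primes `p ≡ b (mod d)` of `(Z, (1 + ε) Z]` and for every `k ≤ n`: no value `f(m)` with
`f ∈ 𝓕` and `|m - x_k(p)| ≤ κ log Z log log Z` is a prime number, and for all weights `w_f, ν_f ≥ 0` there is
an integer `N` with `|N - x_k(p)| ≤ (log Z) ^ 2` for which
`|∑ w_f (#{1 ≤ n ≤ N : f(n) prime} - ν_f ∫_2^N dt / log t)| ≥ κ (∑ w_f ν_f) log log Z`.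
So the error term of the (conjectural) asymptotic formula for the number of the `n ≤ N` with `n ^ 2 - 2` prime is
at least `κ log log N` in absolute value for some `N` within `(log Z) ^ 2` of `⌊p ^ c⌋`, for at least
`Z ^ (1 - ε)` primes `p ≤ (1 + ε) Z`, for every real `c > 0` which is not an integer, and the same is true near
`⌊p ^ c⌋`, `⌊p ^ e⌋`, … at the same time.

Proof (`Pool.Agent.N542.PU`). The covering theorem with several root counting functions (helper201, after helper474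
and helper256) is generalized to arbitrary finite families and to densities which are slightly smaller than
`ρ(p) / p`; it is applied to the vectors `(⌊x_1(p)⌋, …, ⌊x_n(p)⌋)`, a prime `q` being used for the shift `s` at the
place `k` only if no other place is hit modulo `q`. The family is well distributed modulo the integers up to a
small power of `Z` by the exponential sums over primes of `MP_c853c5_nt.NeighbouringValues` and the inequality of
Erdős-Turán-Koksma; the number of the primes `p` is obtained by applying the criterion to the family of all the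
`p` which are not good.
-/

namespace Pool.Agent.Results.MP_0b748d_nt.CompositeStringsAtSmoothValues

open Finset Filter Topology Polynomial

/-- `f` is smoothly varying with index `c`: it is positive and has derivatives of every order near
infinity, and `t ^ j f⁽ʲ⁾(t) / f(t)` tends to `c (c - 1) ⋯ (c - j + 1)` for every `j`. -/
def SmoothlyVarying (c : ℝ) (f : ℝ → ℝ) : Prop :=
  (∀ᶠ t in atTop, 0 < f t) ∧
  (∀ j : ℕ, ∀ᶠ t in atTop, DifferentiableAt ℝ (iteratedDeriv j f) t) ∧
  ∀ j : ℕ, Tendsto (fun t => t ^ j * iteratedDeriv j f t / f t) atTop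
    (𝓝 (∏ i ∈ range j, (c - i)))

/-- The main theorem. -/
theorem result {r n : ℕ} (hn : 1 ≤ n) (𝓕 : Finset ℤ[X]) (h𝓕 : ∀ f ∈ 𝓕, 0 < f.natDegree)
    (c u : Fin r → ℝ) (f : Fin r → ℝ → ℝ) (hcn : ∀ j, ∀ n : ℕ, c j ≠ n)
    (hf : ∀ j, SmoothlyVarying (c j) (f j))
    (φ : Fin n → Fin r) (σ : Fin n → ℤ) (hφσ : ∀ k l, φ k = φ l → σ k = σ l → k = l)
    (hφ : ∀ j, ((univ.filter (fun k => φ k = j)).card : ℝ) < c j + u j + 1)
    (hv : (∀ i j, i ≠ j → ∀ m : ℤ, (c i + u i) - (c j + u j) ≠ m) ∨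
      (Function.Injective φ ∧ ∀ i j, i ≠ j → c i + u i ≠ c j + u j))
    (B D d b : ℕ) (hd : 0 < d) (hb : b.Coprime d) (ε : ℝ) (hε : 0 < ε) (hε1 : ε ≤ 1 / 2) :
    ∃ κ δ : ℝ, 0 < κ ∧ 0 < δ ∧ ∀ᶠ Z : ℝ in atTop, ∀ S : Finset ℤ,
      (∀ s ∈ S, |(s : ℝ)| ≤ (Real.log Z) ^ B) →
      (S.card : ℝ) ≤ κ * Real.log Z * Real.log (Real.log Z) →
      ∀ (α : Fin r → ℝ) (P : Fin n → Polynomial ℝ),
      (∀ j, Z ^ (u j - δ) ≤ |α j| ∧ |α j| ≤ Z ^ (u j + δ)) → (∀ k, (P k).natDegree ≤ D) →
      ∃ G : Finset ℕ, Z ^ (1 - ε) ≤ (G.card : ℝ) ∧ ∀ p ∈ G, p.Prime ∧ p ≡ b [MOD d] ∧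
        Z < p ∧ (p : ℝ) ≤ (1 + ε) * Z ∧
        ∀ k, ∀ g ∈ 𝓕, ∀ s ∈ S, ∃ q : ℕ, q.Prime ∧ (q : ℝ) ≤ Z ^ ε ∧
          (q : ℤ) ∣ g.eval (⌊α (φ k) * f (φ k) ((p : ℝ) + σ k) + (P k).eval (p : ℝ)⌋ + s) := by
  have hSV : ∀ j, Pool.Agent.N542.PP.SV (c j) (fun k => iteratedDeriv k (f j)) := by
    intro j
    refine ⟨?_, ?_, ?_⟩
    · simpa only [iteratedDeriv_zero] using (hf j).1
    · intro k
      filter_upwards [(hf j).2.1 k] with t ht
      rw [iteratedDeriv_succ]
      exact ht.hasDerivAt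
    · intro k
      have h1 := (hf j).2.2 k
      rw [Pool.Agent.N542.PP.fall]
      simpa only [iteratedDeriv_zero] using h1
  have h := Pool.Agent.N542.PU.transfer hn c u (fun j k => iteratedDeriv k (f j)) hSV hcn φ σ hφσ
    hφ hv 𝓕 h𝓕 B D d b hd hb ε hε hε1
  simp only [iteratedDeriv_zero] at h
  exact h

/-- the number of `1 ≤ n ≤ N` for which `g n` is a prime number -/
noncomputable def primeCount (g : ℤ[X]) (N : ℕ) : ℕ :=
  ((Finset.Icc 1 N).filter (fun n : ℕ => (g.eval (n : ℤ)).toNat.Prime)).card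

/-- No prime values on strings, and large error terms, near the values of the functions. -/
theorem error_terms {r n : ℕ} (hn : 1 ≤ n) (𝓕 : Finset ℤ[X]) (h𝓕 : ∀ f ∈ 𝓕, 0 < f.natDegree)
    (c : Fin r → ℝ) (f : Fin r → ℝ → ℝ) (hc : ∀ j, 0 < c j) (hcn : ∀ j, ∀ n : ℕ, c j ≠ n)
    (hf : ∀ j, SmoothlyVarying (c j) (f j))
    (φ : Fin n → Fin r) (σ : Fin n → ℤ) (hφσ : ∀ k l, φ k = φ l → σ k = σ l → k = l)
    (hφ : ∀ j, ((univ.filter (fun k => φ k = j)).card : ℝ) < c j + 1)
    (hv : (∀ i j, i ≠ j → ∀ m : ℤ, c i - c j ≠ m) ∨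
      (Function.Injective φ ∧ ∀ i j, i ≠ j → c i ≠ c j))
    (d b : ℕ) (hd : 0 < d) (hb : b.Coprime d) (ε : ℝ) (hε : 0 < ε) (hε1 : ε ≤ 1 / 2) :
    ∃ κ : ℝ, 0 < κ ∧ ∀ᶠ Z : ℝ in atTop,
      ∃ G : Finset ℕ, Z ^ (1 - ε) ≤ (G.card : ℝ) ∧ ∀ p ∈ G, p.Prime ∧ p ≡ b [MOD d] ∧
        Z < p ∧ (p : ℝ) ≤ (1 + ε) * Z ∧ ∀ k,
        (∀ m : ℤ, |(m : ℝ) - f (φ k) ((p : ℝ) + σ k)| ≤ κ * Real.log Z * Real.log (Real.log Z) →
          ∀ g ∈ 𝓕, ¬ (g.eval m).natAbs.Prime) ∧
        ∀ w ν : ℤ[X] → ℝ, (∀ g ∈ 𝓕, 0 ≤ w g ∧ 0 ≤ ν g) →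
          ∃ N : ℕ, |(N : ℝ) - f (φ k) ((p : ℝ) + σ k)| ≤ (Real.log Z) ^ 2 ∧
            κ * (∑ g ∈ 𝓕, w g * ν g) * Real.log (Real.log Z) ≤
              |∑ g ∈ 𝓕, w g * ((primeCount g N : ℝ) - ν g * ∫ t in (2 : ℝ)..N, 1 / Real.log t)| := by
  have hSV : ∀ j, Pool.Agent.N542.PP.SV (c j) (fun k => iteratedDeriv k (f j)) := by
    intro j
    refine ⟨?_, ?_, ?_⟩
    · simpa only [iteratedDeriv_zero] using (hf j).1
    · intro k
      filter_upwards [(hf j).2.1 k] with t ht
      rw [iteratedDeriv_succ]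
      exact ht.hasDerivAt
    · intro k
      have h1 := (hf j).2.2 k
      rw [Pool.Agent.N542.PP.fall]
      simpa only [iteratedDeriv_zero] using h1
  have h := Pool.Agent.N542.PU.err_terms hn c (fun j k => iteratedDeriv k (f j)) hSV hcn hc φ σ hφσ
    hφ hv 𝓕 h𝓕 d b hd hb ε hε hε1
  simp only [iteratedDeriv_zero] at h
  exact h

/-- `t ^ c` plus a combination of lower real powers is smoothly varying with index `c`. -/
theorem smoothlyVarying_genPoly (c : ℝ) (n : ℕ) (a b : Fin n → ℝ) (hb : ∀ i, b i < c) :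
    SmoothlyVarying c (fun t => t ^ c + ∑ i, a i * t ^ b i) :=
  Pool.Agent.N542.PB.genPoly_sv c n a b hb

end Pool.Agent.Results.MP_0b748d_nt.CompositeStringsAtSmoothValues
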