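import Mathlib

/-!
# The equation `a n = σ n` for the `n` without odd prime square factors (problem MP_846857_nt)

Let `a n = n τ(n) - ∑ d τ(d)`, the sum over the divisors `d < n` of `n`. The conjecture is that
`a n = σ n` only for the powers of `2`. We show (`result`) that this holds for all `n` which are not
divisible by the square of an odd prime.

Proof. With `g n = ∑ d τ(d)`, the sum over all divisors of `n`, the equation is
`g n + σ n = 2 n τ(n)`. If `n` is not a power of `2`, then `σ n` is even, because `σ p = p + 1` for an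
odd prime factor `p`, and `g n` is odd, because `d τ(d)` is even for all divisors `d ≠ 1`.
-/

set_option autoImplicit false

namespace Pool.Agent.Results.MP_846857_nt.NoOddSquare

open Finset

/-- The number of positive divisors of `n`. -/
def tau (n : ℕ) : ℕ := n.divisors.card

/-- The sum of the positive divisors of `n`. -/
def sigma (n : ℕ) : ℕ := ∑ d ∈ n.divisors, d

/-- `a n = n τ(n) - ∑ d τ(d)`, the sum over the divisors `d` of `n` with `d < n`. -/
def a (n : ℕ) : ℤ := (n : ℤ) * tau n - ∑ d ∈ n.properDivisors, (d : ℤ) * tau d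

/-- the full divisor sum -/
def g (n : ℕ) : ℕ := ∑ d ∈ n.divisors, d * tau d

theorem a_eq_iff {n : ℕ} (hn : n ≠ 0) : a n = sigma n ↔ g n + sigma n = 2 * n * tau n := by
  have h : (g n : ℤ) = ∑ d ∈ n.properDivisors, (d : ℤ) * tau d + (n : ℤ) * tau n := by
    rw [g, ← Nat.insert_self_properDivisors hn, Finset.sum_insert Nat.self_notMem_properDivisors]
    push_cast
    ring
  rw [a]
  constructor
  · intro h'
    have : ((g n + sigma n : ℕ) : ℤ) = ((2 * n * tau n : ℕ) : ℤ) := by
      push_cast; rw [h]; linarith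
    exact_mod_cast this
  · intro h'
    have h2 : ((g n + sigma n : ℕ) : ℤ) = ((2 * n * tau n : ℕ) : ℤ) := by rw [h']
    push_cast at h2
    rw [h] at h2
    linarith

open ArithmeticFunction ArithmeticFunction.sigma ArithmeticFunction.zeta in
theorem g_mul {m n : ℕ} (h : m.Coprime n) : g (m * n) = g m * g n := by
  have e : ∀ x, g x = (ArithmeticFunction.pmul ArithmeticFunction.id (σ 0) * ζ) x := by
    intro x
    rw [mul_zeta_apply, g]
    refine Finset.sum_congr rfl (fun d _ => ?_)
    rw [pmul_apply, id_apply, sigma_zero_apply, tau]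
  rw [e, e, e]
  exact ((isMultiplicative_id.pmul isMultiplicative_sigma).mul isMultiplicative_zeta).map_mul_of_coprime h

open ArithmeticFunction ArithmeticFunction.sigma ArithmeticFunction.zeta in
theorem sigma_mul {m n : ℕ} (h : m.Coprime n) : sigma (m * n) = sigma m * sigma n := by
  have e : ∀ x, sigma x = σ 1 x := fun x => by rw [sigma_one_apply, sigma]
  rw [e, e, e]
  exact isMultiplicative_sigma.map_mul_of_coprime h

open ArithmeticFunction ArithmeticFunction.sigma ArithmeticFunction.zeta in
theorem tau_mul {m n : ℕ} (h : m.Coprime n) : tau (m * n) = tau m * tau n := by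
  have e : ∀ x, tau x = σ 0 x := fun x => by rw [sigma_zero_apply, tau]
  rw [e, e, e]
  exact isMultiplicative_sigma.map_mul_of_coprime h

theorem tau_pow {p : ℕ} (hp : p.Prime) (k : ℕ) : tau (p ^ k) = k + 1 := by
  rw [tau, Nat.divisors_prime_pow hp]; simp

theorem g_pow {p : ℕ} (hp : p.Prime) (k : ℕ) :
    g (p ^ k) = ∑ j ∈ range (k + 1), (j + 1) * p ^ j := by
  rw [g, Nat.sum_divisors_prime_pow hp]
  refine Finset.sum_congr rfl (fun j _ => ?_)
  rw [tau_pow hp, mul_comm]

theorem sigma_pow {p : ℕ} (hp : p.Prime) (k : ℕ) :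
    sigma (p ^ k) = ∑ j ∈ range (k + 1), p ^ j := by
  rw [sigma, Nat.sum_divisors_prime_pow hp]

theorem odd_squarefree {n : ℕ} (hn : n ≠ 0) (h2 : ∀ k, n ≠ 2 ^ k)
    (hsq : ∀ p, p.Prime → Odd p → ¬ p ^ 2 ∣ n) : a n ≠ sigma n := by
  intro h
  rw [a_eq_iff hn] at h
  -- `σ n` is even
  have hs : Even (sigma n) := by
    rcases Nat.eq_two_pow_or_exists_odd_prime_and_dvd n with ⟨k, hk⟩ | ⟨p, hp, hpd, hpo⟩
    · exact (h2 k hk).elim
    · obtain ⟨m, rfl⟩ := hpd
      have hpm : ¬ p ∣ m := by
        rintro ⟨e, rfl⟩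
        exact hsq p hp hpo ⟨e, by ring⟩
      have hco : p.Coprime m := (Nat.Prime.coprime_iff_not_dvd hp).mpr hpm
      rw [sigma_mul hco]
      have hsp : sigma p = p + 1 := by
        have := sigma_pow hp 1
        rw [pow_one] at this
        rw [this, Finset.sum_range_succ, Finset.sum_range_one, pow_zero, pow_one]
        ring
      rw [hsp]
      exact (hpo.add_odd odd_one).mul_right _
  -- `g n` is odd
  have hg : Odd (g n) := by
    have h1 : 1 ∈ n.divisors := Nat.one_mem_divisors.mpr hn
    have e : g n = 1 * tau 1 + ∑ d ∈ n.divisors.erase 1, d * tau d := by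
      exact (Finset.add_sum_erase n.divisors (fun d => d * tau d) h1).symm
    have ht : tau 1 = 1 := by simp [tau]
    rw [e, ht, mul_one, add_comm]
    apply Even.add_one
    apply Finset.even_sum
    intro d hd
    rw [Finset.mem_erase, Nat.mem_divisors] at hd
    obtain ⟨hd1, hdn, -⟩ := hd
    rcases Nat.even_or_odd d with he | ho
    · exact he.mul_right _
    · obtain ⟨q, hq, hqd⟩ := Nat.exists_prime_and_dvd hd1
      have hqo : Odd q := ho.of_dvd_nat hqd
      obtain ⟨m, rfl⟩ := hqd
      have hqm : ¬ q ∣ m := by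
        rintro ⟨e, rfl⟩
        exact hsq q hq hqo (Dvd.dvd.trans ⟨e, by ring⟩ hdn)
      have hco : q.Coprime m := (Nat.Prime.coprime_iff_not_dvd hq).mpr hqm
      rw [tau_mul hco]
      have htq : tau q = 2 := by
        have := tau_pow hq 1
        rwa [pow_one] at this
      rw [htq]
      exact (even_two.mul_right _).mul_left _
  have hodd : Odd (g n + sigma n) := hg.add_even hs
  rw [h] at hodd
  exact (Nat.not_odd_iff_even.mpr ((even_two.mul_right n).mul_right (tau n))) hodd

/-- Main theorem: the conjecture for all `n` not divisible by the square of an odd prime. -/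
theorem result (n : ℕ) (hn : n ≠ 0) (hsq : ∀ p, p.Prime → Odd p → ¬ p ^ 2 ∣ n) :
    a n = sigma n ↔ ∃ k : ℕ, n = 2 ^ k := by
  have hpow2 : ∀ k : ℕ, a (2 ^ k) = sigma (2 ^ k) := by
    intro k
    rw [a_eq_iff (by positivity), g_pow Nat.prime_two, sigma_pow Nat.prime_two,
      tau_pow Nat.prime_two]
    induction k with
    | zero => simp
    | succ k ih =>
      rw [Finset.sum_range_succ _ (k + 1), Finset.sum_range_succ _ (k + 1)]
      have : (2 : ℕ) ^ (k + 1) = 2 * 2 ^ k := by ring
      rw [this]
      nlinarith [ih]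
  constructor
  · intro h
    by_contra hcon
    push Not at hcon
    exact odd_squarefree hn hcon hsq h
  · rintro ⟨k, rfl⟩
    exact hpow2 k

end Pool.Agent.Results.MP_846857_nt.NoOddSquare
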